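import Mathlib
import Pool.Agent.MP_5230e1_gt.Mg.Main

set_option autoImplicit false

namespace Pool.Agent.Results.MP_5230e1_gt.NearlyRound

open Pool.Agent.MP_5230e1_gt

/-- Every convex Brunnian link in `ℝ^n` is ambient isotopic, for every `ε > 0`, to an
`ε`-nearly round link, whose exceptional component is moreover an ellipsoid. -/
theorem result (n m : ℕ) (k : Fin m → ℕ) (F : Fin m → Set (EuclideanSpace ℝ (Fin n)))
    (hconv : ∀ i, IsConvexKnot (k i) (F i)) (hdisj : ∀ i j, i ≠ j → Disjoint (F i) (F j))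
    (hB : IsBrunnian k F) (ε : ℝ) (hε : 0 < ε) :
    ∃ F' : Fin m → Set (EuclideanSpace ℝ (Fin n)),
      AmbientIsotopic F F' ∧ IsNearlyRound ε k F' ∧ ∀ i, IsEllipsoid (k i) (F' i) :=
  (main hconv hdisj hB hε).2

end Pool.Agent.Results.MP_5230e1_gt.NearlyRound
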