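import Mathlib
import Pool.Agent.MP_5230e1_gt.Mg.Main

set_option autoImplicit false

namespace Pool.Agent.Results.MP_5230e1_gt.ThreeComponents

open Pool.Agent.MP_5230e1_gt

/-- Every convex Brunnian link in `ℝ^n` has exactly three components. -/
theorem result (n m : ℕ) (k : Fin m → ℕ) (F : Fin m → Set (EuclideanSpace ℝ (Fin n)))
    (hconv : ∀ i, IsConvexKnot (k i) (F i)) (hdisj : ∀ i j, i ≠ j → Disjoint (F i) (F j))
    (hB : IsBrunnian k F) : m = 3 :=
  (main hconv hdisj hB one_pos).1

end Pool.Agent.Results.MP_5230e1_gt.ThreeComponents
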